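import Pool.Agent.Run7.h543.DEP.Stm

/-!
# Project DEP (helper543), piece TRA: the traces (helper803)
-/

set_option autoImplicit false
set_option linter.all false

noncomputable section

namespace Run7.h803.DEP

open Finset Matrix
open Run7.h543.DEP (lap IsHopping HasGapT JJ green aa bb walk S_CON S_GRE S_TRA)

variable {V : Type} [Fintype V] [DecidableEq V]

/-- the trace of `G * M * G` for a symmetric matrix `G` -/
theorem tr3 (G M : Matrix V V ℝ) (hs : ∀ x y, G x y = G y x) :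
    trace (G * M * G) = ∑ x, ∑ y, ∑ z, G x y * M y z * G x z := by
  unfold Matrix.trace
  refine Finset.sum_congr rfl fun x _ => ?_
  rw [Matrix.diag_apply, Matrix.mul_apply]
  rw [Finset.sum_comm]
  refine Finset.sum_congr rfl fun z _ => ?_
  rw [Matrix.mul_apply, Finset.sum_mul]
  refine Finset.sum_congr rfl fun y _ => ?_
  rw [hs z x]

theorem tr2 (G M : Matrix V V ℝ) : trace (G * M) =
    ∑ x, ∑ y, ∑ z, G x y * M y z * (if z = x then 1 else 0) := by
  unfold Matrix.trace
  refine Finset.sum_congr rfl fun x _ => ?_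
  rw [Matrix.diag_apply, Matrix.mul_apply]
  refine Finset.sum_congr rfl fun y _ => ?_
  simp

theorem t_TRA : S_CON → S_GRE → S_TRA := by
  intro hCON hGRE V _ _ t D g hD hg hn ht hgap lam hlam m H hH
  obtain ⟨-, -, c3, -, c5, c6, -⟩ := hCON V t D g hD hg hn ht hgap
  obtain ⟨g1, g2, g3, g4, -⟩ := hGRE V t D g hD hg (by omega) ht hgap
  obtain ⟨P, hP⟩ : ∃ P : Matrix V V ℝ, P = walk t D := ⟨_, rfl⟩
  obtain ⟨L, hL⟩ : ∃ L : Matrix V V ℝ, L = lap t := ⟨_, rfl⟩
  obtain ⟨G, hG⟩ : ∃ G : Matrix V V ℝ, G = green t := ⟨_, rfl⟩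
  obtain ⟨n, hn'⟩ : ∃ n : ℝ, n = (Fintype.card V : ℝ) := ⟨_, rfl⟩
  obtain ⟨θ, hθ⟩ : ∃ θ : ℝ, θ = 1 - g / (2 * D) := ⟨_, rfl⟩
  obtain ⟨a, ha⟩ : ∃ a : ℝ, a = 1 / (2 * D + lam) := ⟨_, rfl⟩
  obtain ⟨q, hq⟩ : ∃ q : ℝ, q = 2 * D / (2 * D + lam) := ⟨_, rfl⟩
  unfold aa bb
  rw [← hP] at c3 c6
  rw [← hG] at g1 g2 g3 g4
  rw [← hθ] at c6
  rw [← hP, ← ha, ← hq] at hH
  rw [← hG, ← hn', ← hq, ← hθ]
  rw [← hL] at g2
  have hn0 : 0 < n := by rw [hn']; exact_mod_cast (by omega : 0 < Fintype.card V)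
  obtain ⟨l1, l2⟩ := abs_le.1 hlam
  have hDl : 0 < 2 * D + lam := by linarith
  have ha0 : 0 < a := by rw [ha]; positivity
  have hq0 : 0 < q := by rw [hq]; positivity
  have hθ0 : 0 ≤ θ := by
    rw [hθ, sub_nonneg, div_le_one (by positivity)]
    exact c5
  have hqa : q = 2 * D * a := by rw [hq, ha]; ring
  have haa : (2 * D + lam) * a = 1 := by rw [ha]; field_simp
  -- the form bound
  have fb : ∀ (k : ℕ) (f h : V → ℝ), ∑ x, f x = 0 →
      |∑ x, ∑ y, f x * (P ^ k) x y * h y| ≤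
        θ ^ k * Real.sqrt (∑ x, f x ^ 2) * Real.sqrt (∑ x, h x ^ 2) := by
    intro k f h hf
    rw [abs_le]
    refine ⟨?_, c6 k f h hf⟩
    have h1 := c6 k f (fun x => -h x) hf
    have e1 : ∑ x, ∑ y, f x * (P ^ k) x y * (-h y) = -∑ x, ∑ y, f x * (P ^ k) x y * h y := by
      rw [← Finset.sum_neg_distrib]
      refine Finset.sum_congr rfl fun x _ => ?_
      rw [← Finset.sum_neg_distrib]
      refine Finset.sum_congr rfl fun y _ => ?_
      ring
    have e2 : ∑ x, (-h x) ^ 2 = ∑ x, h x ^ 2 := Finset.sum_congr rfl fun x _ => by ring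
    simp only [e1, e2] at h1
    linarith
  have hGs : ∀ x, Real.sqrt (∑ y, G x y ^ 2) ≤ 1 / g := by
    intro x
    rw [Real.sqrt_le_left (by positivity)]
    refine (g4 x).trans (le_of_eq ?_)
    rw [div_pow, one_pow]
  -- traces with powers of the walk
  have t3 : ∀ k : ℕ, |trace (G * P ^ k * G)| ≤ n * (θ ^ k / g ^ 2) := by
    intro k
    rw [tr3 G _ g1]
    refine (Finset.abs_sum_le_sum_abs _ _).trans ?_
    have : ∀ x ∈ (Finset.univ : Finset V), |∑ y, ∑ z, G x y * (P ^ k) y z * G x z| ≤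
        θ ^ k / g ^ 2 := by
      intro x _
      refine (fb k (G x) (G x) (g3 x)).trans ?_
      have h1 : Real.sqrt (∑ y, G x y ^ 2) * Real.sqrt (∑ y, G x y ^ 2) ≤ 1 / g ^ 2 := by
        rw [Real.mul_self_sqrt (Finset.sum_nonneg fun y _ => sq_nonneg _)]
        exact g4 x
      calc θ ^ k * Real.sqrt (∑ y, G x y ^ 2) * Real.sqrt (∑ y, G x y ^ 2)
          = θ ^ k * (Real.sqrt (∑ y, G x y ^ 2) * Real.sqrt (∑ y, G x y ^ 2)) := by ring
        _ ≤ θ ^ k * (1 / g ^ 2) := mul_le_mul_of_nonneg_left h1 (pow_nonneg hθ0 k)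
        _ = θ ^ k / g ^ 2 := by ring
    refine (Finset.sum_le_card_nsmul _ _ _ this).trans (le_of_eq ?_)
    rw [nsmul_eq_mul, Finset.card_univ, ← hn']
  have t2 : |trace (G * P ^ m)| ≤ n * (θ ^ m / g) := by
    rw [tr2]
    refine (Finset.abs_sum_le_sum_abs _ _).trans ?_
    have : ∀ x ∈ (Finset.univ : Finset V),
        |∑ y, ∑ z, G x y * (P ^ m) y z * (if z = x then 1 else 0)| ≤ θ ^ m / g := by
      intro x _
      refine (fb m (G x) (fun z => if z = x then 1 else 0) (g3 x)).trans ?_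
      have e1 : ∑ z : V, (if z = x then (1 : ℝ) else 0) ^ 2 = 1 := by simp
      rw [e1, Real.sqrt_one, mul_one]
      calc θ ^ m * Real.sqrt (∑ y, G x y ^ 2) ≤ θ ^ m * (1 / g) :=
            mul_le_mul_of_nonneg_left (hGs x) (pow_nonneg hθ0 m)
        _ = θ ^ m / g := by ring
    refine (Finset.sum_le_card_nsmul _ _ _ this).trans (le_of_eq ?_)
    rw [nsmul_eq_mul, Finset.card_univ, ← hn']
  -- the trace with `H`
  have t4 : |trace (G * H * G)| ≤ n * (2 / g ^ 3) := by
    have e1 : trace (G * H * G) = a * ∑ k ∈ range m, q ^ k * trace (G * P ^ k * G) := by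
      rw [hH, Matrix.mul_smul, Matrix.smul_mul, Matrix.trace_smul, Matrix.mul_sum, Matrix.sum_mul,
        Matrix.trace_sum, smul_eq_mul]
      congr 1
      refine Finset.sum_congr rfl fun k _ => ?_
      rw [Matrix.mul_smul, Matrix.smul_mul, Matrix.trace_smul, smul_eq_mul]
    rw [e1, abs_mul, abs_of_pos ha0]
    have h1 : |∑ k ∈ range m, q ^ k * trace (G * P ^ k * G)| ≤
        (n / g ^ 2) * ∑ k ∈ range m, (q * θ) ^ k := by
      rw [Finset.mul_sum]
      refine (Finset.abs_sum_le_sum_abs _ _).trans (Finset.sum_le_sum fun k _ => ?_)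
      rw [abs_mul, abs_of_nonneg (pow_nonneg hq0.le k)]
      calc q ^ k * |trace (G * P ^ k * G)| ≤ q ^ k * (n * (θ ^ k / g ^ 2)) :=
            mul_le_mul_of_nonneg_left (t3 k) (pow_nonneg hq0.le k)
        _ = n / g ^ 2 * (q * θ) ^ k := by rw [mul_pow]; ring
    have h2 : (1 - q * θ) * ∑ k ∈ range m, (q * θ) ^ k ≤ 1 := by
      rw [mul_neg_geom_sum]
      have := pow_nonneg (mul_nonneg hq0.le hθ0) m
      linarith
    have h3 : 1 - q * θ = a * (g + lam) := by
      rw [hqa, hθ]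
      have e3 : 2 * D * a * (1 - g / (2 * D)) = 2 * D * a - a * g := by
        field_simp
      rw [e3]
      linear_combination -haa
    have h4 : a * ∑ k ∈ range m, (q * θ) ^ k ≤ 2 / g := by
      rw [h3] at h2
      have hS : 0 ≤ ∑ k ∈ range m, (q * θ) ^ k :=
        Finset.sum_nonneg fun k _ => pow_nonneg (mul_nonneg hq0.le hθ0) k
      rw [le_div_iff₀ hg]
      have h5 : (a * ∑ k ∈ range m, (q * θ) ^ k) * (g / 2) ≤
          (a * ∑ k ∈ range m, (q * θ) ^ k) * (g + lam) :=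
        mul_le_mul_of_nonneg_left (by linarith) (mul_nonneg ha0.le hS)
      have h6 : (a * ∑ k ∈ range m, (q * θ) ^ k) * (g + lam) =
        a * (g + lam) * ∑ k ∈ range m, (q * θ) ^ k := by ring
      linarith
    calc a * |∑ k ∈ range m, q ^ k * trace (G * P ^ k * G)|
        ≤ a * ((n / g ^ 2) * ∑ k ∈ range m, (q * θ) ^ k) :=
          mul_le_mul_of_nonneg_left h1 ha0.le
      _ = (n / g ^ 2) * (a * ∑ k ∈ range m, (q * θ) ^ k) := by ring
      _ ≤ (n / g ^ 2) * (2 / g) := mul_le_mul_of_nonneg_left h4 (by positivity)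
      _ = n * (2 / g ^ 3) := by field_simp
  -- algebra
  have hPL : P = 1 - (1 / (2 * D)) • L := by rw [hP, hL]; rfl
  have hLs : L + lam • (1 : Matrix V V ℝ) = (2 * D + lam) • (1 - q • P) := by
    rw [hPL]
    ext x y
    simp only [Matrix.add_apply, Matrix.smul_apply, Matrix.sub_apply, smul_eq_mul]
    rw [hq]
    field_simp
    ring
  have hA : (L + lam • (1 : Matrix V V ℝ)) * H = 1 - q ^ m • P ^ m := by
    have e1 : H = a • ∑ k ∈ range m, (q • P) ^ k := by
      rw [hH]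
      congr 1
      exact Finset.sum_congr rfl fun k _ => (smul_pow q P k).symm
    rw [hLs, e1, Matrix.smul_mul, Matrix.mul_smul, smul_smul, haa, one_smul, mul_neg_geom_sum,
      smul_pow]
  have hLsymm : ∀ x y, L x y = L y x := by
    intro x y
    rw [hL]
    unfold Run7.h543.DEP.lap
    rw [ht.symm x y]
    by_cases h : x = y
    · rw [h]
    · rw [if_neg h, if_neg (Ne.symm h)]
  have hLG : L * G = 1 - JJ V := by
    ext x y
    rw [g2 x y, Matrix.sub_apply, Matrix.one_apply]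
    rfl
  have hGL : G * L = 1 - JJ V := by
    have h1 := congrArg Matrix.transpose hLG
    rw [Matrix.transpose_mul, Matrix.transpose_sub, Matrix.transpose_one] at h1
    have hGt : Gᵀ = G := by ext x y; exact g1 y x
    have hLt : Lᵀ = L := by ext x y; exact hLsymm y x
    have hJt : (JJ V)ᵀ = JJ V := by ext x y; rfl
    rwa [hGt, hLt, hJt] at h1
  have hGJ : G * JJ V = 0 := by
    ext x y
    rw [Matrix.mul_apply]
    show ∑ z, G x z * (1 / (Fintype.card V : ℝ)) = 0
    rw [← Finset.sum_mul, g3 x, zero_mul]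
  have hB : (1 - JJ V) * H + lam • (G * H) = G - q ^ m • (G * P ^ m) := by
    have h1 := congrArg (fun M => G * M) hA
    rw [← Matrix.mul_assoc, Matrix.mul_add, hGL, Matrix.mul_smul, Matrix.mul_one, Matrix.add_mul,
      Matrix.smul_mul, Matrix.mul_sub, Matrix.mul_one, Matrix.mul_smul] at h1
    exact h1
  have hC : G * H + lam • (G * G * H) = G * G - q ^ m • (G * G * P ^ m) := by
    have h1 := congrArg (fun M => G * M) hB
    rw [Matrix.mul_add, ← Matrix.mul_assoc, Matrix.mul_sub G 1, hGJ, sub_zero, Matrix.mul_one,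
      Matrix.mul_smul, Matrix.mul_sub, Matrix.mul_smul, ← Matrix.mul_assoc, ← Matrix.mul_assoc] at h1
    exact h1
  have hBt := congrArg Matrix.trace hB
  have hCt := congrArg Matrix.trace hC
  rw [Matrix.trace_add, Matrix.trace_sub, Matrix.trace_smul, Matrix.trace_smul, Matrix.sub_mul,
    Matrix.one_mul, Matrix.trace_sub, smul_eq_mul, smul_eq_mul] at hBt
  rw [Matrix.trace_add, Matrix.trace_sub, Matrix.trace_smul, Matrix.trace_smul, smul_eq_mul,
    smul_eq_mul] at hCt
  have cyc1 : trace (G * G * H) = trace (G * H * G) := (Matrix.trace_mul_cycle G H G).symm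
  have cyc2 : trace (G * G * P ^ m) = trace (G * P ^ m * G) :=
    (Matrix.trace_mul_cycle G (P ^ m) G).symm
  rw [cyc1, cyc2] at hCt
  -- the trace of `J H`
  have hJ : trace (JJ V * H) = a * ∑ k ∈ range m, q ^ k := by
    have e1 : trace (JJ V * H) = ∑ y, (1 / n) * ∑ x, H y x := by
      unfold Matrix.trace
      simp only [Matrix.diag_apply, Matrix.mul_apply]
      rw [Finset.sum_comm]
      refine Finset.sum_congr rfl fun y _ => ?_
      rw [Finset.mul_sum]
      refine Finset.sum_congr rfl fun x _ => ?_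
      rw [hn']
      rfl
    have e2 : ∀ y, ∑ x, H y x = a * ∑ k ∈ range m, q ^ k := by
      intro y
      rw [hH]
      simp only [Matrix.smul_apply, Matrix.sum_apply, smul_eq_mul]
      rw [← Finset.mul_sum, Finset.sum_comm]
      congr 1
      refine Finset.sum_congr rfl fun k _ => ?_
      rw [← Finset.mul_sum, c3 k y, mul_one]
    rw [e1]
    simp only [e2]
    rw [Finset.sum_const, Finset.card_univ, nsmul_eq_mul, ← hn']
    field_simp
  -- conclusion
  have key : trace H / n - (trace G / n - lam * (trace (G * G) / n)) =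
      (a * ∑ k ∈ range m, q ^ k) / n + lam ^ 2 * (trace (G * H * G) / n) +
      (lam * q ^ m * (trace (G * P ^ m * G) / n) - q ^ m * (trace (G * P ^ m) / n)) := by
    rw [← hJ]
    have h1 : trace H = trace (JJ V * H) + trace G - lam * trace (G * G) +
        lam ^ 2 * trace (G * H * G) + lam * q ^ m * trace (G * P ^ m * G) -
        q ^ m * trace (G * P ^ m) := by
      linear_combination hBt - lam * hCt
    rw [h1]
    ring
  rw [key]
  have hS : 0 ≤ ∑ k ∈ range m, q ^ k := Finset.sum_nonneg fun k _ => pow_nonneg hq0.le k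
  have b1 : (a * ∑ k ∈ range m, q ^ k) / n =
      (∑ k ∈ range m, q ^ k) / ((2 * D + lam) * n) := by
    rw [ha]; field_simp
  have b2 : |lam ^ 2 * (trace (G * H * G) / n)| ≤ 2 * lam ^ 2 / g ^ 3 := by
    rw [abs_mul, abs_div, abs_of_pos hn0, abs_of_nonneg (sq_nonneg lam)]
    calc lam ^ 2 * (|trace (G * H * G)| / n) ≤ lam ^ 2 * (2 / g ^ 3) := by
          apply mul_le_mul_of_nonneg_left _ (sq_nonneg lam)
          rw [div_le_iff₀ hn0]
          linarith
      _ = 2 * lam ^ 2 / g ^ 3 := by ring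
  have hqm : 0 ≤ q ^ m := pow_nonneg hq0.le m
  have b3 : |lam * q ^ m * (trace (G * P ^ m * G) / n)| ≤ (q * θ) ^ m / g := by
    rw [abs_mul, abs_mul, abs_of_nonneg hqm, abs_div, abs_of_pos hn0]
    have h1 : |trace (G * P ^ m * G)| / n ≤ θ ^ m / g ^ 2 := by
      rw [div_le_iff₀ hn0]
      linarith [t3 m]
    calc |lam| * q ^ m * (|trace (G * P ^ m * G)| / n) ≤ g / 2 * q ^ m * (θ ^ m / g ^ 2) :=
          mul_le_mul (mul_le_mul_of_nonneg_right hlam hqm) h1 (by positivity) (by positivity)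
      _ = ((q * θ) ^ m / g) / 2 := by rw [mul_pow]; field_simp
      _ ≤ (q * θ) ^ m / g := by
          have : 0 ≤ (q * θ) ^ m / g := by positivity
          linarith
  have b4 : |q ^ m * (trace (G * P ^ m) / n)| ≤ (q * θ) ^ m / g := by
    rw [abs_mul, abs_of_nonneg hqm, abs_div, abs_of_pos hn0]
    have h1 : |trace (G * P ^ m)| / n ≤ θ ^ m / g := by
      rw [div_le_iff₀ hn0]
      linarith [t2]
    calc q ^ m * (|trace (G * P ^ m)| / n) ≤ q ^ m * (θ ^ m / g) :=
          mul_le_mul_of_nonneg_left h1 hqm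
      _ = (q * θ) ^ m / g := by rw [mul_pow]; ring
  have b0 : 0 ≤ (a * ∑ k ∈ range m, q ^ k) / n := by positivity
  calc |(a * ∑ k ∈ range m, q ^ k) / n + lam ^ 2 * (trace (G * H * G) / n) +
      (lam * q ^ m * (trace (G * P ^ m * G) / n) - q ^ m * (trace (G * P ^ m) / n))|
      ≤ |(a * ∑ k ∈ range m, q ^ k) / n| + |lam ^ 2 * (trace (G * H * G) / n)| +
        (|lam * q ^ m * (trace (G * P ^ m * G) / n)| + |q ^ m * (trace (G * P ^ m) / n)|) :=
        (abs_add_le _ _).trans (add_le_add (abs_add_le _ _) (abs_sub _ _))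
    _ ≤ (∑ k ∈ range m, q ^ k) / ((2 * D + lam) * n) + 2 * lam ^ 2 / g ^ 3 +
        ((q * θ) ^ m / g + (q * θ) ^ m / g) := by
        rw [abs_of_nonneg b0, b1]
        exact add_le_add (add_le_add le_rfl b2) (add_le_add b3 b4)
    _ = 2 * lam ^ 2 / g ^ 3 + (∑ k ∈ range m, q ^ k) / ((2 * D + lam) * n) +
        2 * (q * θ) ^ m / g := by ring

end Run7.h803.DEP
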